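import Mathlib
import Pool.Agent.H32.CertB

set_option autoImplicit false

namespace Pool.Agent.Results.MP_232e98_an.MinCert

open ComplexConjugate Pool.Agent.H32.Cert
open scoped ComplexOrder

/-- Positive semidefinite function: every sum `∑ cᵢ conj(cⱼ) K(xᵢ,xⱼ)` is a nonnegative real. -/
def IsKernel {X : Type} (K : X → X → ℂ) : Prop :=
  ∀ (n : ℕ) (x : Fin n → X) (c : Fin n → ℂ), 0 ≤ ∑ i, ∑ j, c i * conj (c j) * K (x i) (x j)

/-- Complete Pick kernel. -/
def IsCP {X : Type} (s : X → X → ℂ) : Prop :=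
  IsKernel s ∧ (∀ z w, s z w ≠ 0) ∧ ∃ (δ : X → ℂ) (F : X → X → ℂ), (∀ z, δ z ≠ 0) ∧ IsKernel F ∧
    (∀ x, F x x < 1) ∧ ∀ z w, s z w = δ z * conj (δ w) / (1 - F z w)

/-- `s` is a certificate for `k`. -/
def IsCertificate {X : Type} (k s : X → X → ℂ) : Prop :=
  IsCP s ∧ ∃ h : X → X → ℂ, IsKernel h ∧ ∀ z w, k z w = (1 - h z w) * s z w

/-- `s` is a minimum certificate for `k`. -/
def IsMinCertificate {X : Type} (k s : X → X → ℂ) : Prop :=
  IsCertificate k s ∧ ∀ s' : X → X → ℂ, IsCertificate k s' → IsKernel fun z w => s' z w / s z w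

/-- The open disc of radius `1/√2`. -/
abbrev Disc : Type := {z : ℂ // ‖z‖ < 1 / √2}

/-- The Bergman kernel `(1 - z conj w)^(-2)` on the disc of radius `1/√2`. -/
noncomputable def bergman (z w : Disc) : ℂ := ((1 - z.1 * conj w.1) ^ 2)⁻¹

/-- The kernel `(1 - 2 z conj w)^(-1)`. -/
noncomputable def sMin (z w : Disc) : ℂ := (1 - 2 * z.1 * conj w.1)⁻¹

theorem of_pk {X : Type} {K : X → X → ℂ} (h : PK K) : IsKernel K := by
  intro n x c
  have := (Matrix.PosSemidef.submatrix h x).dotProduct_mulVec_nonneg (star c)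
  simp only [star_star, dotProduct, Matrix.mulVec, Matrix.submatrix_apply, Matrix.of_apply,
    Pi.star_apply, Finset.mul_sum, RCLike.star_def, Complex.conj_conj] at this
  refine this.trans_eq (Finset.sum_congr rfl fun i _ => Finset.sum_congr rfl fun j _ => by ring)

theorem to_pk {X : Type} {K : X → X → ℂ} (h : IsKernel K) : PK K := by
  refine ⟨Matrix.IsHermitian.ext fun x y => ?_, fun a => ?_⟩
  · have h1 := (Complex.le_def.mp (h 1 ![x] ![1])).2
    have h2 := (Complex.le_def.mp (h 1 ![y] ![1])).2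
    have h3 := (Complex.le_def.mp (h 2 ![x, y] ![1, 1])).2
    have h4 := (Complex.le_def.mp (h 2 ![x, y] ![1, Complex.I])).2
    simp [Fin.sum_univ_succ] at h1 h2 h3 h4
    refine Complex.ext ?_ ?_
    · simp; linarith
    · simp; linarith
  · let e := a.support.equivFin.symm
    have := h _ (fun i => (e i).1) fun i => conj (a (e i).1)
    refine this.trans_eq ?_
    simp only [Finsupp.sum, Matrix.of_apply]
    rw [← Finset.sum_coe_sort a.support, ← e.sum_comp]
    refine Finset.sum_congr rfl fun i _ => ?_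
    rw [← Finset.sum_coe_sort a.support, ← e.sum_comp]
    refine Finset.sum_congr rfl fun j _ => ?_
    simp only [Complex.conj_conj, RCLike.star_def]; ring

theorem result : IsMinCertificate bergman sMin := by
  have hne : ∀ z w : D, 1 - 2 * z.1 * conj w.1 ≠ 0 := fun z w h => by
    have := z.mul_lt' w
    rw [← sub_eq_zero.mp h] at this
    simp at this
  have hne1 : ∀ z w : D, 1 - z.1 * conj w.1 ≠ 0 := fun z w h => by
    have := z.mul_lt w
    rw [← sub_eq_zero.mp h] at this
    simp at this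
  refine ⟨⟨⟨of_pk pk_s, fun z w => inv_ne_zero (hne z w), fun _ => 1,
    fun z w => 2 * z.1 * conj w.1, fun _ => one_ne_zero, of_pk ?_, fun x => ?_, fun z w => by
      simp [sMin]⟩, fun z w => (z.1 * conj w.1) ^ 2 * ((1 - z.1 * conj w.1) ^ 2)⁻¹, of_pk ?_,
      fun z w => ?_⟩, ?_⟩
  · exact (pk_pow 2 zero_le_two 1).congr fun z w => by simp [mul_assoc]
  · have := D.mul_lt' x x
    beta_reduce
    rw [mul_assoc, Complex.mul_conj] at this ⊢
    have h2 : (2 : ℂ) * (Complex.normSq x.1 : ℂ) = ((2 * Complex.normSq x.1 : ℝ) : ℂ) := by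
      push_cast; rfl
    rw [h2] at this ⊢
    rw [Complex.norm_real] at this
    exact_mod_cast (le_abs_self _).trans_lt this
  · exact ((pk_pow 1 zero_le_one 2).mul pk_b).congr fun z w => by simp
  · have h1 := hne z w
    have h2 := hne1 z w
    simp only [bergman, sMin]
    rw [eq_mul_inv_iff_mul_eq₀ h1]
    field_simp; ring
  · rintro s ⟨⟨hs, hs0, δ, F, -, hF, hF1, e1⟩, h, hh, e2⟩
    exact of_pk (main F (to_pk hF) (fun x => (Complex.lt_def.mp (hF1 x)).1) δ s h (to_pk hs)
      (to_pk hh) hs0 e1 e2)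

end Pool.Agent.Results.MP_232e98_an.MinCert
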